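import Pool.Agent.R800.UA.Uni

/-!
# The canonical bundle of an étale torus quotient
-/

set_option autoImplicit false

namespace Pool.Agent.R800.UA

open Pool.Agent.W594.SYZ2 Pool.Agent.W594.SYZ2.TQ Pool.Agent.TH735.AQ Pool.Agent.R893.TQ

variable {V : Type*} [NormedAddCommGroup V] [NormedSpace ℂ V]

/-- `Γ` acts freely on `V`, so that `X = V / Γ` is a compact complex manifold. -/
def ActsFreely (Γ : Subgroup (V ≃ᵃ[ℂ] V)) : Prop := ∀ γ ∈ Γ, ∀ v, γ v = v → γ = 1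

/-- The canonical bundle of the manifold `X = V / Γ`: a section `s` is identified with the holomorphic
form `s dz₁ ∧ … ∧ dzₙ` on `V`, which is invariant under `Γ` if and only if
`s (γ v) = (det γ.linear)⁻¹ s(v)`. -/
noncomputable def canon (Γ : Subgroup (V ≃ᵃ[ℂ] V)) (hfree : ActsFreely Γ) : LineBundle Γ where
  e := fun γ _ => (LinearMap.det (((γ : V ≃ᵃ[ℂ] V).linear : V ≃ₗ[ℂ] V) : V →ₗ[ℂ] V))⁻¹
  holo := fun γ => differentiable_const _
  ne_zero := fun γ v => inv_ne_zero (LinearEquiv.isUnit_det' _).ne_zero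
  mul := fun γ δ v => by
    rw [← mul_inv, ← LinearMap.det_comp]
    rfl
  stab := fun γ v h => by
    have h1 := hfree γ γ.2 v h
    rw [h1, inv_eq_one]
    exact LinearMap.det_id

variable {Γ : Subgroup (V ≃ᵃ[ℂ] V)}

theorem det_pow [FiniteDimensional ℂ V] (hΓ : IsTorusQuotient Γ) {n : ℕ}
    (hd : Module.finrank ℂ V = n) (γ : Γ) :
    ((LinearMap.det (((γ : V ≃ᵃ[ℂ] V).linear : V ≃ₗ[ℂ] V) : V →ₗ[ℂ] V))⁻¹) ^ gl3 n = 1 := by
  have := finite_Lin hΓ
  obtain ⟨k, hk⟩ := card_dvd hΓ hd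
  let g : Lin Γ := ⟨(γ : V ≃ᵃ[ℂ] V).linear, γ, γ.2, rfl⟩
  have h1 : (g : V ≃ₗ[ℂ] V) ^ Nat.card (Lin Γ) = 1 := by
    have h2 : g ^ Nat.card (Lin Γ) = 1 := pow_card_eq_one'
    have h3 := congrArg Subtype.val h2
    exact h3
  have h4 : LinearMap.det (((γ : V ≃ᵃ[ℂ] V).linear : V ≃ₗ[ℂ] V) : V →ₗ[ℂ] V) ^ Nat.card (Lin Γ) = 1 := by
    have h5 := congrArg LinearEquiv.det h1
    rw [map_pow, map_one] at h5
    have h6 := congrArg Units.val h5
    rw [Units.val_pow_eq_pow_val, LinearEquiv.coe_det] at h6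
    exact h6
  rw [inv_pow, hk, pow_mul, h4, one_pow, inv_one]

/-- The canonical bundle is torsion, of order bounded in terms of the dimension. -/
theorem canon_torsion [FiniteDimensional ℂ V] (hΓ : IsTorusQuotient Γ) (hfree : ActsFreely Γ) {n : ℕ}
    (hd : Module.finrank ℂ V = n) : ((canon Γ hfree).pow (gl3 n)).IsTrivial := by
  refine ⟨fun _ => 1, ⟨differentiable_const _, fun γ v => ?_⟩, fun _ => one_ne_zero⟩
  change (1 : ℂ) = ((LinearMap.det (((γ : V ≃ᵃ[ℂ] V).linear : V ≃ₗ[ℂ] V) : V →ₗ[ℂ] V))⁻¹) ^ gl3 n * 1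
  rw [det_pow hΓ hd, mul_one]

/-- The canonical bundle is flat. -/
theorem canon_chern [FiniteDimensional ℂ V] (hΓ : IsTorusQuotient Γ) (hfree : ActsFreely Γ) :
    IsChernForm (canon Γ hfree) (fun _ _ => 0) := by
  apply chern_of_flat
  refine ⟨fun γ v w => rfl, fun γ v => ?_⟩
  have := finite_Lin hΓ
  have h : ((canon Γ hfree).pow (gl3 (Module.finrank ℂ V))).e γ v = 1 := det_pow hΓ rfl γ
  have h1 : ‖(canon Γ hfree).e γ v‖ ^ gl3 (Module.finrank ℂ V) = 1 := by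
    rw [← norm_pow]
    change ‖((canon Γ hfree).pow (gl3 (Module.finrank ℂ V))).e γ v‖ = 1
    rw [h, norm_one]
  exact (pow_eq_one_iff_of_nonneg (norm_nonneg _) (gl3_pos _).ne').1 h1

end Pool.Agent.R800.UA
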