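import Pool.Agent.TH735.AQ.Defs

/-!
# Line bundles which are pullbacks of very positive line bundles
-/

set_option autoImplicit false

namespace Pool.Agent.R800.UA

open Pool.Agent.W594.SYZ2

/-- Let `f : X = V / Γ → B = W / Δ` be the map induced by the linear map `π`. The line bundle `L ^ m` is
isomorphic to the pullback `f^* A` of an ample line bundle `A` on `B` which is generated by its global
sections. (The pullback is given by the factor of automorphy `γ ↦ A.e δ (π v)`, `δ` the transformation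
of `W` induced by `γ`, and the isomorphism is the multiplication with the nowhere vanishing function
`h`; `A` is ample if its Chern form `HA` is positive definite.) -/
def PullsBack {V W : Type*} [NormedAddCommGroup V] [NormedSpace ℂ V] [NormedAddCommGroup W]
    [NormedSpace ℂ W] {Γ : Subgroup (V ≃ᵃ[ℂ] V)} (L : LineBundle Γ) (Δ : Subgroup (W ≃ᵃ[ℂ] W))
    (π : V →ₗ[ℂ] W) (m : ℕ) : Prop :=
  ∃ (A : LineBundle Δ) (HA : W → W → ℂ), IsChernForm A HA ∧ IsPositiveForm HA ∧
    (∀ w, ∃ s, A.IsSection s ∧ s w ≠ 0) ∧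
    ∃ h : V → ℂ, Differentiable ℂ h ∧ (∀ v, h v ≠ 0) ∧
      ∀ (γ : Γ) (δ : Δ), (∀ v, (δ : W ≃ᵃ[ℂ] W) (π v) = π ((γ : V ≃ᵃ[ℂ] V) v)) →
        ∀ v, h ((γ : V ≃ᵃ[ℂ] V) v) * (L.pow m).e γ v = A.e δ (π v) * h v

end Pool.Agent.R800.UA
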