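import Pool.Agent.R800.UA.Uni
import Pool.Agent.R800.UA.FibDefs

/-!
# The fibration of a nef line bundle on a torus quotient, with a uniform exponent
-/

set_option autoImplicit false

namespace Pool.Agent.R800.UA

open Pool.Agent.W594.SYZ2 Pool.Agent.W594.SYZ2.TQ Pool.Agent.TH735.AQ Pool.Agent.R893.TQ

variable {V W : Type*} [NormedAddCommGroup V] [NormedSpace ℂ V]
  [NormedAddCommGroup W] [NormedSpace ℂ W]
  {Γ : Subgroup (V ≃ᵃ[ℂ] V)} {Δ : Subgroup (W ≃ᵃ[ℂ] W)} {π : V →ₗ[ℂ] W}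

theorem lin_rel {γ : V ≃ᵃ[ℂ] V} {δ : W ≃ᵃ[ℂ] W} (h : ∀ v, δ (π v) = π (γ v)) (v : V) :
    δ.linear (π v) = π (γ.linear v) := by
  have h1 := h v
  have h0 := h 0
  rw [act γ v, act δ (π v), map_add] at h1
  rw [map_zero] at h0
  rw [h0] at h1
  exact add_right_cancel h1

/-- The group of linear parts of the base is a quotient of that of the total space. -/
theorem card_base [FiniteDimensional ℂ V] (hf : IsFibration Γ Δ π) :
    Nat.card (Lin Δ) ∣ Nat.card (Lin Γ) := by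
  have hex : ∀ g : Lin Γ, ∃ d : Lin Δ, ∀ v, d.1 (π v) = π (g.1 v) := by
    rintro ⟨g, γ, hγ, rfl⟩
    obtain ⟨δ, hδ, h⟩ := hf.maps γ hγ
    exact ⟨⟨δ.linear, δ, hδ, rfl⟩, lin_rel h⟩
  choose φ hφ using hex
  have huniq : ∀ d d' : Lin Δ, (∀ v, d.1 (π v) = d'.1 (π v)) → d = d' := by
    intro d d' h
    apply Subtype.ext
    apply LinearEquiv.ext
    intro w
    obtain ⟨v, rfl⟩ := hf.surj w
    exact h v
  let Φ : Lin Γ →* Lin Δ := MonoidHom.mk' φ (by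
    intro g g'
    apply huniq
    intro v
    rw [hφ]
    change π (g.1 (g'.1 v)) = (φ g).1 ((φ g').1 (π v))
    rw [hφ, hφ])
  have hΦ : Function.Surjective Φ := by
    rintro ⟨d, δ, hδ, rfl⟩
    obtain ⟨γ, hγ, h⟩ := hf.onto δ hδ
    refine ⟨⟨γ.linear, γ, hγ, rfl⟩, ?_⟩
    apply huniq
    intro v
    change (φ ⟨γ.linear, _⟩).1 (π v) = δ.linear (π v)
    rw [hφ, lin_rel h]
  exact Subgroup.card_dvd_of_surjective Φ hΦ

theorem hone_base (hf : IsFibration Γ Δ π) (h01 : HOneZero Γ) : HOneZero Δ := by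
  intro ℓ hℓ
  have h1 : ℓ.comp π = 0 := by
    apply h01
    intro γ hγ w
    obtain ⟨δ, hδ, h⟩ := hf.maps γ hγ
    change ℓ (π (γ.linear w)) = ℓ (π w)
    rw [← lin_rel h, hℓ δ hδ]
  ext w
  obtain ⟨v, rfl⟩ := hf.surj w
  exact LinearMap.congr_fun h1 v

/-- The semiample fibration of a nef line bundle, with a uniform exponent. -/
theorem fibration_uni [FiniteDimensional ℂ V] {L : LineBundle Γ} {H : V → V → ℂ}
    (hΓ : IsTorusQuotient Γ) (h01 : HOneZero Γ) {n : ℕ}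
    (hd : Module.finrank ℂ V = n) (hc : IsChernForm L H) (hn : IsNefForm H) :
    ∃ (k : ℕ) (Δ : Subgroup ((Fin k → ℂ) ≃ᵃ[ℂ] (Fin k → ℂ))) (π : V →ₗ[ℂ] (Fin k → ℂ)),
      (∀ v, π v = 0 ↔ ∀ w, H v w = 0) ∧ IsFibration Γ Δ π ∧ PullsBack L Δ π (4 * gl3 n ^ 7) := by
  obtain ⟨hH, F, hF, hFe⟩ := hc
  have := finite_Lin hΓ
  have hpot : IsPot L H F := ⟨hF, hFe⟩
  let k := Module.finrank ℂ (V ⧸ ker hH)
  let e : (V ⧸ ker hH) ≃ₗ[ℂ] (Fin k → ℂ) := (Module.finBasis ℂ (V ⧸ ker hH)).equivFun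
  let π : V →ₗ[ℂ] (Fin k → ℂ) := (e : (V ⧸ ker hH) →ₗ[ℂ] (Fin k → ℂ)) ∘ₗ (ker hH).mkQ
  have S : Pool.Agent.TH735.AQ.Sit Γ L H F π hH (Nat.card (Lin Γ)) := by
    refine ⟨hΓ, hpot, hn, ?_, ?_, Nat.card_pos, fun b hb hbK => chi_pow hΓ h01 hH hpot hb hbK⟩
    · exact e.surjective.comp (ker hH).mkQ_surjective
    · intro v
      change e ((ker hH).mkQ v) = 0 ↔ v ∈ ker hH
      rw [LinearEquiv.map_eq_zero_iff, Submodule.mkQ_apply, Submodule.Quotient.mk_eq_zero]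
  have hf := S.isFibration
  refine ⟨k, Del Γ π, π, S.ker_iff, hf, ?_⟩
  set N := Nat.card (Lin Γ) with hN
  set N' := Nat.card (Lin (Del Γ π)) with hN'
  have hd1 : N' ∣ N := card_base hf
  have hd2 : N ∣ gl3 n := card_dvd hΓ hd
  have hex : Pool.Agent.TH735.AQ.ex Γ N = N ^ 2 := by
    rw [Pool.Agent.TH735.AQ.ex, ← hN, sq]
  obtain ⟨t, ht⟩ : N ^ 2 * (4 * N' ^ 5) ∣ 4 * gl3 n ^ 7 := by
    have h1 : 4 * gl3 n ^ 7 = gl3 n ^ 2 * (4 * gl3 n ^ 5) := by ring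
    rw [h1]
    exact Nat.mul_dvd_mul (pow_dvd_pow_of_dvd hd2 2)
      (Nat.mul_dvd_mul_left 4 (pow_dvd_pow_of_dvd (hd1.trans hd2) 5))
  let A := Pool.Agent.TH735.AQ.bun S
  have hAc := Pool.Agent.TH735.AQ.HA_chern S
  have hAp := Pool.Agent.TH735.AQ.HA_pos S
  set HA := Pool.Agent.TH735.AQ.HA Γ H π N with hHA
  have hAn : IsNefForm HA := by
    intro w
    by_cases hw : w = 0
    · rw [hw, h_zero_left hAc.1]
      simp
    · exact (hAp w hw).le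
  have hfree : BaseFree (A.pow (4 * N' ^ 5 * t)) :=
    baseFree_of_dvd ⟨t, rfl⟩ (power_eff S.base (hone_base hf h01) hAc hAn)
  set T := 4 * N' ^ 5 * t with hT
  have hTpos : 0 < T := by
    rcases Nat.eq_zero_or_pos T with h | h
    · exfalso
      have h1 : 0 < 4 * gl3 n ^ 7 := by have := gl3_pos n; positivity
      rw [ht, mul_assoc, ← hT, h, mul_zero] at h1
      exact lt_irrefl _ h1
    · exact h
  refine ⟨A.pow T, fun v w => (T : ℂ) * HA v w, chern_pow hAc T, ?_, hfree,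
    fun v => Complex.exp (-(N ^ 2 * F v)) ^ T, ((hF.const_mul ((N : ℂ) ^ 2)).neg.cexp).pow T,
    fun v => pow_ne_zero _ (Complex.exp_ne_zero _), ?_⟩
  · intro w hw
    rw [natCast_mul_re]
    have : (0 : ℝ) < T := by exact_mod_cast hTpos
    exact mul_pos this (hAp w hw)
  · intro γ δ h v
    have h1 : A.e δ (π v) = tw L F γ v ^ N ^ 2 := by
      have := Pool.Agent.TH735.AQ.bun_e S γ δ h v
      rw [hex] at this
      exact this
    change Complex.exp (-(N ^ 2 * F ((γ : V ≃ᵃ[ℂ] V) v))) ^ T * L.e γ v ^ (4 * gl3 n ^ 7)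
      = A.e δ (π v) ^ T * Complex.exp (-(N ^ 2 * F v)) ^ T
    have h2 : Complex.exp (-(N ^ 2 * F ((γ : V ≃ᵃ[ℂ] V) v)))
        = Complex.exp (F v - F ((γ : V ≃ᵃ[ℂ] V) v)) ^ (N ^ 2)
          * Complex.exp (-(N ^ 2 * F v)) := by
      rw [← Complex.exp_nat_mul, ← Complex.exp_add]
      congr 1
      push_cast
      ring
    rw [ht, mul_assoc (N ^ 2), ← hT, pow_mul (L.e γ v), h1, tw, h2]
    simp only [mul_pow]
    ring

end Pool.Agent.R800.UA
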