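import Mathlib

/-!
# Minkowski's lemma: an integral matrix of finite order which is congruent to one modulo three is trivial
-/

set_option autoImplicit false

namespace Pool.Agent.R800.UA

open Matrix

theorem one_add_pow {R : Type*} [Ring R] (n : ℤ) (x : R) (k : ℕ) :
    ∃ y : R, (1 + n • x) ^ k = 1 + ((k : ℤ) * n) • x + (n ^ 2) • y := by
  induction k with
  | zero => exact ⟨0, by simp⟩
  | succ k ih =>
    obtain ⟨y, hy⟩ := ih
    refine ⟨(k : ℤ) • (x * x) + y + n • (y * x), ?_⟩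
    rw [pow_succ, hy]
    simp only [add_mul, mul_add, one_mul, mul_one, smul_mul_assoc, mul_smul_comm, smul_add, smul_smul]
    push_cast
    module

variable {N : ℕ}

/-- If all powers of three divide `A - 1` then `A = 1`. -/
theorem eq_one_of_all {A : Matrix (Fin N) (Fin N) ℤ}
    (h : ∀ j : ℕ, ∃ X : Matrix (Fin N) (Fin N) ℤ, A = 1 + ((3 : ℤ) ^ j) • X) : A = 1 := by
  have h0 : A - 1 = 0 := by
    ext a b
    have hd : ∀ j : ℕ, (3 : ℤ) ^ j ∣ (A - 1) a b := by
      intro j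
      obtain ⟨X, hX⟩ := h j
      refine ⟨X a b, ?_⟩
      rw [hX, add_sub_cancel_left, Matrix.smul_apply, smul_eq_mul]
    by_contra hne
    have h1 : (A - 1) a b ≠ 0 := hne
    obtain ⟨j, hj⟩ : ∃ j : ℕ, |(A - 1) a b| < 3 ^ j := by
      refine ⟨((A - 1) a b).natAbs, ?_⟩
      rw [Int.abs_eq_natAbs]
      exact_mod_cast Nat.lt_pow_self (by norm_num : 1 < 3)
    have h2 := Int.le_of_dvd (abs_pos.2 h1) ((dvd_abs _ _).2 (hd j))
    omega
  exact sub_eq_zero.1 h0

theorem exists_smul {X : Matrix (Fin N) (Fin N) ℤ} (h : ∀ a b, (3 : ℤ) ∣ X a b) :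
    ∃ Y : Matrix (Fin N) (Fin N) ℤ, X = (3 : ℤ) • Y := by
  choose Y hY using h
  exact ⟨Matrix.of Y, by ext a b; rw [Matrix.smul_apply, smul_eq_mul]; exact hY a b⟩

theorem coprime_case {A : Matrix (Fin N) (Fin N) ℤ} {k : ℕ} (hk : ¬ 3 ∣ k) (hA : A ^ k = 1)
    (h3 : ∃ X : Matrix (Fin N) (Fin N) ℤ, A = 1 + (3 : ℤ) • X) : A = 1 := by
  have key : ∀ j : ℕ, ∃ X : Matrix (Fin N) (Fin N) ℤ, A = 1 + ((3 : ℤ) ^ (j + 1)) • X := by
    intro j
    induction j with
    | zero => simpa using h3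
    | succ j ih =>
      obtain ⟨X, hX⟩ := ih
      obtain ⟨Y, hY⟩ := one_add_pow ((3 : ℤ) ^ (j + 1)) X k
      rw [← hX, hA, add_assoc, left_eq_add] at hY
      obtain ⟨Z, hZ⟩ : ∃ Y : Matrix (Fin N) (Fin N) ℤ, X = (3 : ℤ) • Y := by
        apply exists_smul
        intro a b
        have h1 := congrFun (congrFun hY a) b
        rw [Matrix.add_apply, Matrix.smul_apply, Matrix.smul_apply, smul_eq_mul, smul_eq_mul,
          Matrix.zero_apply] at h1
        have h2 : ((k : ℤ) * X a b) = 3 * (-(3 ^ j) * Y a b) := by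
          have h4 : (3 : ℤ) ^ (j + 1) ≠ 0 := by positivity
          apply mul_left_cancel₀ h4
          have h5 : (3 : ℤ) ^ (j + 1) = 3 ^ j * 3 := pow_succ _ _
          rw [h5] at h1 ⊢
          linear_combination h1
        have h6 : (3 : ℤ) ∣ (k : ℤ) * X a b := ⟨_, h2⟩
        have h7 : IsCoprime (3 : ℤ) (k : ℤ) := by
          rw [Int.isCoprime_iff_gcd_eq_one]
          have : Nat.Coprime 3 k := (Nat.Prime.coprime_iff_not_dvd Nat.prime_three).2 hk
          exact_mod_cast this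
        exact h7.dvd_of_dvd_mul_left h6
      refine ⟨Z, ?_⟩
      rw [hX, hZ, smul_smul, ← pow_succ]
  refine eq_one_of_all fun j => ?_
  obtain ⟨X, hX⟩ := key j
  exact ⟨(3 : ℤ) • X, by rw [hX, smul_smul, ← pow_succ]⟩

theorem three_case {A : Matrix (Fin N) (Fin N) ℤ} (hA : A ^ 3 = 1)
    (h3 : ∃ X : Matrix (Fin N) (Fin N) ℤ, A = 1 + (3 : ℤ) • X) : A = 1 := by
  have key : ∀ j : ℕ, ∃ X : Matrix (Fin N) (Fin N) ℤ, A = 1 + ((3 : ℤ) ^ (j + 1)) • X := by
    intro j
    induction j with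
    | zero => simpa using h3
    | succ j ih =>
      obtain ⟨X, hX⟩ := ih
      have hc : (1 + ((3 : ℤ) ^ (j + 1)) • X) ^ 3
          = 1 + (3 * (3 : ℤ) ^ (j + 1)) • X + (3 * ((3 : ℤ) ^ (j + 1)) ^ 2) • (X * X)
            + (((3 : ℤ) ^ (j + 1)) ^ 3) • (X * X * X) := by
        simp only [pow_succ (1 + ((3 : ℤ) ^ (j + 1)) • X), pow_zero, one_mul, add_mul, mul_add, mul_one,
          smul_mul_assoc, mul_smul_comm, smul_add, smul_smul, mul_assoc]
        module
      rw [← hX, hA, add_assoc, add_assoc, left_eq_add] at hc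
      obtain ⟨Z, hZ⟩ : ∃ Y : Matrix (Fin N) (Fin N) ℤ, X = (3 : ℤ) • Y := by
        apply exists_smul
        intro a b
        have h1 := congrFun (congrFun hc a) b
        simp only [Matrix.add_apply, Matrix.smul_apply, smul_eq_mul, Matrix.zero_apply] at h1
        have h4 : (3 : ℤ) * (3 : ℤ) ^ (j + 1) ≠ 0 := by positivity
        refine ⟨-(3 ^ j * (X * X) a b + 3 ^ (2 * j) * (X * X * X) a b), ?_⟩
        apply mul_left_cancel₀ h4
        have h5 : (3 : ℤ) ^ (j + 1) = 3 ^ j * 3 := pow_succ _ _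
        have h6 : (3 : ℤ) ^ (2 * j) = 3 ^ j * 3 ^ j := by rw [two_mul, pow_add]
        rw [h6]
        rw [h5] at h1 ⊢
        linear_combination h1
      refine ⟨Z, ?_⟩
      rw [hX, hZ, smul_smul, ← pow_succ]
  refine eq_one_of_all fun j => ?_
  obtain ⟨X, hX⟩ := key j
  exact ⟨(3 : ℤ) • X, by rw [hX, smul_smul, ← pow_succ]⟩

/-- Minkowski's lemma. -/
theorem minkowski : ∀ (k : ℕ), 0 < k → ∀ A : Matrix (Fin N) (Fin N) ℤ, A ^ k = 1 →
    (∃ X : Matrix (Fin N) (Fin N) ℤ, A = 1 + (3 : ℤ) • X) → A = 1 := by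
  intro k
  induction k using Nat.strong_induction_on with
  | _ k ih =>
    intro hk A hA h3
    by_cases hd : 3 ∣ k
    · obtain ⟨l, rfl⟩ := hd
      have hl : 0 < l := by omega
      refine three_case (ih l (by omega) hl (A ^ 3) (by rw [← pow_mul]; exact hA) ?_) h3
      obtain ⟨X, hX⟩ := h3
      obtain ⟨Y, hY⟩ := one_add_pow 3 X 3
      refine ⟨(3 : ℤ) • X + (3 : ℤ) • Y, ?_⟩
      rw [hX, hY, smul_add, smul_smul, smul_smul, add_assoc]
      norm_num
    · exact coprime_case hd hA h3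

end Pool.Agent.R800.UA
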