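import Pool.Agent.R800.UA.Mink
import Pool.Agent.TH735.AQ.Fib

/-!
# The group of linear parts of a torus quotient embeds into the general linear group over `F_3`
-/

set_option autoImplicit false

namespace Pool.Agent.R800.UA

open Pool.Agent.W594.SYZ2 Pool.Agent.W594.SYZ2.TQ

variable {V : Type*} [NormedAddCommGroup V] [NormedSpace ℂ V] {Γ : Subgroup (V ≃ᵃ[ℂ] V)}

/-- The action on the lattice. -/
def onLatt (Γ : Subgroup (V ≃ᵃ[ℂ] V)) : Lin Γ →* Module.End ℤ (latt Γ).toIntSubmodule where
  toFun g :=
    { toFun := fun v => ⟨g.1 v.1, by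
        obtain ⟨γ, hγ, h⟩ := g.2
        rw [← h]
        exact latt_inv γ hγ v.2⟩
      map_add' := fun v w => Subtype.ext (map_add _ _ _)
      map_smul' := fun n v => Subtype.ext (map_zsmul _ _ _) }
  map_one' := rfl
  map_mul' g h := rfl

/-- The order of the general linear group of rank `2 n` over the field with three elements. -/
noncomputable def gl3 (n : ℕ) : ℕ := Nat.card (GL (Fin (2 * n)) (ZMod 3))

theorem gl3_pos (n : ℕ) : 0 < gl3 n := Nat.card_pos

variable [FiniteDimensional ℂ V]

/-- Minkowski: the order of the group of linear parts divides the order of `GL (2 n, F_3)`. -/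
theorem card_dvd (hΓ : IsTorusQuotient Γ) {n : ℕ} (hn : Module.finrank ℂ V = n) :
    Nat.card (Lin Γ) ∣ gl3 n := by
  classical
  have : FiniteDimensional ℝ V := FiniteDimensional.complexToReal V
  have := finite_Lin hΓ
  let Λ : Submodule ℤ V := (latt Γ).toIntSubmodule
  have : DiscreteTopology Λ := hΓ.discrete
  have : IsZLattice ℝ Λ := ⟨hΓ.span_top⟩
  have : Module.Finite ℤ Λ := ZLattice.module_finite ℝ Λ
  have : Module.Free ℤ Λ := ZLattice.module_free ℝ Λ
  have hrank : Module.finrank ℤ Λ = 2 * n := by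
    rw [ZLattice.rank ℝ Λ, ← hn, finrank_real_of_complex]
  let b : Module.Basis (Fin (2 * n)) ℤ Λ := Module.finBasisOfFinrankEq ℤ Λ hrank
  let M : Lin Γ →* Matrix (Fin (2 * n)) (Fin (2 * n)) ℤ :=
    ((LinearMap.toMatrixAlgEquiv b : Module.End ℤ Λ ≃ₐ[ℤ] _) : Module.End ℤ Λ →* _).comp (onLatt Γ)
  let R : Lin Γ →* Matrix (Fin (2 * n)) (Fin (2 * n)) (ZMod 3) :=
    ((Int.castRingHom (ZMod 3)).mapMatrix : _ →+* _).toMonoidHom.comp M
  let ρ : Lin Γ →* GL (Fin (2 * n)) (ZMod 3) := R.toHomUnits
  have hρ : Function.Injective ρ := by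
    rw [injective_iff_map_eq_one]
    intro g hg
    have h1 : R g = 1 := by
      have := congrArg Units.val hg
      exact this
    have h2 : ∃ X : Matrix (Fin (2 * n)) (Fin (2 * n)) ℤ, M g = 1 + (3 : ℤ) • X := by
      obtain ⟨Y, hY⟩ := exists_smul (X := M g - 1) (by
        intro i j
        have h3 := congrFun (congrFun h1 i) j
        have h4 : (((M g) i j : ℤ) : ZMod 3) = ((1 : Matrix (Fin (2 * n)) (Fin (2 * n)) ℤ) i j : ℤ) := by
          have h5 : R g i j = ((M g i j : ℤ) : ZMod 3) := rfl
          rw [← h5, h3, Matrix.one_apply, Matrix.one_apply]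
          split_ifs <;> simp
        have h6 := (ZMod.intCast_eq_intCast_iff_dvd_sub _ _ 3).1 h4.symm
        exact_mod_cast h6)
      exact ⟨Y, by rw [← hY]; abel⟩
    have h3 : M g ^ Nat.card (Lin Γ) = 1 := by
      rw [← map_pow, pow_card_eq_one', map_one]
    have h4 := minkowski _ Nat.card_pos (M g) h3 h2
    have h5 : onLatt Γ g = 1 := by
      apply (LinearMap.toMatrixAlgEquiv b).injective
      rw [map_one]
      exact h4
    apply Subtype.ext
    apply LinearEquiv.ext
    intro v
    have h6 : ∀ v ∈ Submodule.span ℝ (latt Γ : Set V), g.1 v = v := by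
      intro v hv
      induction hv using Submodule.span_induction with
      | mem x hx =>
        have := LinearMap.congr_fun h5 ⟨x, hx⟩
        exact congrArg Subtype.val this
      | zero => exact map_zero _
      | add x y _ _ hx hy => rw [map_add, hx, hy]
      | smul a x _ hx =>
        rw [← Complex.coe_smul, map_smul, hx]
    exact h6 v (by rw [hΓ.span_top]; trivial)
  exact Subgroup.card_dvd_of_injective ρ hρ

end Pool.Agent.R800.UA
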