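import Pool.Agent.R800.UA.Rep
import Pool.Agent.R893.TQ.Semi

/-!
# Uniform base point freeness of nef line bundles on torus quotients
-/

set_option autoImplicit false

namespace Pool.Agent.R800.UA

open Pool.Agent.W594.SYZ2 Pool.Agent.W594.SYZ2.TQ Pool.Agent.TH735.AQ Pool.Agent.R893.TQ
open Pool.Agent.Y167 (card_pos EvenForm frac mem_frac)

variable {V : Type*} [NormedAddCommGroup V] [NormedSpace ℂ V] [FiniteDimensional ℂ V]
  {Γ : Subgroup (V ≃ᵃ[ℂ] V)} {L M : LineBundle Γ} {H : V → V → ℂ}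

/-- If `H^1(O) = 0` then the torsion order of a flat line bundle divides `|G|^2`. -/
theorem torsion_eff (hΓ : IsTorusQuotient Γ) (h01 : HOneZero Γ)
    (hc : IsChernForm M (fun _ _ => 0)) : (M.pow (Nat.card (Lin Γ) ^ 2)).IsTrivial := by
  obtain ⟨hH, F, hF, hFe⟩ := hc
  have := finite_Lin hΓ
  have hpot : IsPot M (fun _ _ => 0) F := ⟨hF, hFe⟩
  have S : Sit Γ M (fun _ _ => 0) F (0 : V →ₗ[ℂ] (Fin 0 → ℂ)) hH (Nat.card (Lin Γ)) := by
    refine ⟨hΓ, hpot, fun v => by simp, fun w => ⟨0, Subsingleton.elim _ _⟩, fun v => ?_,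
      Nat.card_pos, fun b hb hbK => chi_pow hΓ h01 hH hpot hb hbK⟩
    exact ⟨fun _ _ => rfl, fun _ => rfl⟩
  refine ⟨fun v => Complex.exp (((Nat.card (Lin Γ) ^ 2 : ℕ) : ℂ) * F v),
    ⟨(hF.const_mul _).cexp, fun γ v => ?_⟩, fun v => Complex.exp_ne_zero _⟩
  have h1 := S.tw_pow γ v (fun w => rfl)
  rw [Pool.Agent.TH735.AQ.ex, tw, mul_pow, ← Complex.exp_nat_mul, ← sq] at h1
  change _ = M.e γ v ^ (Nat.card (Lin Γ) ^ 2) * _
  rw [mul_sub, Complex.exp_sub, ← mul_div_assoc, div_eq_one_iff_eq (Complex.exp_ne_zero _)] at h1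
  exact h1.symm

/-- The effective form of `exists_bpf`. -/
theorem exists_bpf_eff (hΓ : IsTorusQuotient Γ) (hc : IsChernForm L H) (hn : IsNefForm H) :
    ∃ M : LineBundle Γ, IsChernForm M (fun v w => ((4 * Nat.card (Lin Γ) ^ 3 : ℕ) : ℂ) * H v w) ∧
      BaseFree M := by
  obtain ⟨hH, F, hF, hFe⟩ := hc
  have hpot : IsPot L H F := ⟨hF, hFe⟩
  have hinv : ∀ γ ∈ Γ, ∀ v w, H (γ.linear v) (γ.linear w) = H v w :=
    fun γ hγ => h_inv hH hpot ⟨γ, hγ⟩
  have hN := card_pos hΓ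
  set N := Nat.card (Lin Γ) with hNdef
  set q : ℕ := 2 * N ^ 2 with hq
  have hqpos : 0 < q := by positivity
  have hqc : (q : ℂ) = ((q : ℝ) : ℂ) := by push_cast; rfl
  have D : EvenForm Γ N (fun v w => (q : ℂ) * H v w) := by
    refine ⟨⟨?_, ?_, ?_⟩, ?_, ?_, ?_⟩
    · intro u v w
      rw [hH.add_left, mul_add]
    · intro c v w
      rw [hH.smul_left]
      ring
    · intro v w
      rw [map_mul, ← hH.symm, Complex.conj_natCast]
    · intro v
      change 0 ≤ ((q : ℂ) * H v v).re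
      rw [hqc, Complex.re_ofReal_mul]
      exact mul_nonneg (Nat.cast_nonneg _) (hn v)
    · intro γ hγ v w
      change (q : ℂ) * H _ _ = _
      rw [hinv γ hγ]
    · intro v hv w hw
      obtain ⟨n, hn⟩ := im_int hH hpot (mem_frac.1 hv) (mem_frac.1 hw)
      refine ⟨n, ?_⟩
      change ((q : ℂ) * H v w).im = 2 * n
      rw [hqc, Complex.im_ofReal_mul, ← hn, ← Complex.coe_smul, ← Complex.coe_smul, hH.smul_left,
        h_smul_right hH, Complex.conj_ofReal, Complex.im_ofReal_mul, Complex.im_ofReal_mul, hq]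
      push_cast
      ring
  obtain ⟨M, hM, hs⟩ := D.bpf hΓ
  refine ⟨M, ?_, hs⟩
  have e1 : (fun v w => ((4 * N ^ 3 : ℕ) : ℂ) * H v w)
      = fun v w => (2 * N : ℂ) * ((q : ℂ) * H v w) := by
    funext v w
    rw [hq]
    push_cast
    ring
  rw [e1]
  exact hM

omit [FiniteDimensional ℂ V] in
theorem baseFree_of_dvd {a b : ℕ} (h : a ∣ b) (hb : BaseFree (L.pow a)) : BaseFree (L.pow b) := by
  obtain ⟨k, rfl⟩ := h
  intro v
  obtain ⟨s, hs, hv⟩ := hb v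
  refine ⟨fun w => s w ^ k, ⟨hs.holo.pow k, fun γ w => ?_⟩, pow_ne_zero k hv⟩
  change s _ ^ k = L.e γ w ^ (a * k) * s w ^ k
  have h1 := hs.eq γ w
  change s _ = L.e γ w ^ a * s w at h1
  rw [h1, mul_pow, pow_mul]

/-- Effective abundance in terms of the order of the group. -/
theorem power_eff (hΓ : IsTorusQuotient Γ) (h01 : HOneZero Γ) (hc : IsChernForm L H)
    (hn : IsNefForm H) : BaseFree (L.pow (4 * Nat.card (Lin Γ) ^ 5)) := by
  obtain ⟨L', hL', hs⟩ := exists_bpf_eff hΓ hc hn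
  set m := 4 * Nat.card (Lin Γ) ^ 3 with hm
  set k := Nat.card (Lin Γ) ^ 2 with hk
  have hM := chern_mul (chern_pow hc m) (chern_dual hL')
  have hz : (fun v w => (m : ℂ) * H v w + -((m : ℂ) * H v w)) = fun _ _ : V => (0 : ℂ) := by
    funext v w
    ring
  rw [hz] at hM
  have ht := torsion_eff hΓ h01 hM
  rw [← hk] at ht
  obtain ⟨u, ⟨hu, hueq⟩, hune⟩ := ht
  have hmk : 4 * Nat.card (Lin Γ) ^ 5 = m * k := by rw [hm, hk]; ring
  rw [hmk]
  clear_value m k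
  intro v
  obtain ⟨s, ⟨hsh, hseq⟩, hsv⟩ := hs v
  refine ⟨fun w => u w * s w ^ k, ⟨hu.mul (hsh.pow k), fun γ w => ?_⟩,
    mul_ne_zero (hune v) (pow_ne_zero k hsv)⟩
  have h1 := hueq γ w
  have h2 := hseq γ w
  change u ((γ : V ≃ᵃ[ℂ] V) w) * s ((γ : V ≃ᵃ[ℂ] V) w) ^ k = L.e γ w ^ (m * k) * (u w * s w ^ k)
  rw [h1, h2]
  change (L.e γ w ^ m * (L'.e γ w)⁻¹) ^ k * u w * (L'.e γ w * s w) ^ k = _
  have h3 : (L'.e γ w) ^ k ≠ 0 := pow_ne_zero k (L'.ne_zero γ w)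
  rw [mul_pow, mul_pow, inv_pow, pow_mul]
  field_simp

/-- Uniform abundance: the exponent depends only on the dimension. -/
theorem power_uni (hΓ : IsTorusQuotient Γ) (h01 : HOneZero Γ) {n : ℕ}
    (hd : Module.finrank ℂ V = n) (hc : IsChernForm L H) (hn : IsNefForm H) :
    BaseFree (L.pow (4 * gl3 n ^ 5)) :=
  baseFree_of_dvd (Nat.mul_dvd_mul_left 4 (pow_dvd_pow_of_dvd (card_dvd hΓ hd) 5))
    (power_eff hΓ h01 hc hn)

theorem natCast_mul_re (k : ℕ) (z : ℂ) : ((k : ℂ) * z).re = (k : ℝ) * z.re := by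
  have : ((k : ℕ) : ℂ) = ((k : ℝ) : ℂ) := by push_cast; rfl
  rw [this, Complex.re_ofReal_mul]

/-- Uniform numerical semiampleness: the exponent depends only on the dimension. -/
theorem numerical_uni (hΓ : IsTorusQuotient Γ) {n : ℕ}
    (hd : Module.finrank ℂ V = n) (hc : IsChernForm L H) (hn : IsNefForm H) :
    ∃ M : LineBundle Γ, IsChernForm M (fun v w => ((4 * gl3 n ^ 3 : ℕ) : ℂ) * H v w) ∧
      BaseFree M := by
  obtain ⟨M, hM, hs⟩ := exists_bpf_eff hΓ hc hn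
  obtain ⟨k, hk⟩ : 4 * Nat.card (Lin Γ) ^ 3 ∣ 4 * gl3 n ^ 3 :=
    Nat.mul_dvd_mul_left 4 (pow_dvd_pow_of_dvd (card_dvd hΓ hd) 3)
  refine ⟨M.pow k, ?_, hs.pow k⟩
  have h1 := chern_pow hM k
  have e1 : (fun v w => ((4 * gl3 n ^ 3 : ℕ) : ℂ) * H v w)
      = fun v w => (k : ℂ) * (((4 * Nat.card (Lin Γ) ^ 3 : ℕ) : ℂ) * H v w) := by
    funext v w
    rw [hk]
    push_cast
    ring
  rw [e1]
  exact h1

end Pool.Agent.R800.UA
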