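import Pool.Agent.TH735.AQ.Defs

/-!
# Weil divisor classes on torus quotients
-/

set_option autoImplicit false

namespace Pool.Agent.R800.UA

open Pool.Agent.W594.SYZ2

variable {V : Type*} [NormedAddCommGroup V] [NormedSpace ℂ V]

/-- A Weil divisor class (equivalently, a reflexive sheaf of rank one) on the quotient `X = V / Γ` of a
complex torus by a finite group, given by its reflexive pullback to `V` with the action of `Γ`: a factor
of automorphy `e`. In contrast to a line bundle on `X` the stabiliser of a point `v` need not act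
trivially on the fibre over `v`. If `Γ` acts freely in codimension one (that is, if `K_X` is torsion)
then every factor of automorphy belongs to a unique Weil divisor class. -/
structure WeilClass (Γ : Subgroup (V ≃ᵃ[ℂ] V)) where
  e : Γ → V → ℂ
  holo : ∀ γ, Differentiable ℂ (e γ)
  ne_zero : ∀ γ v, e γ v ≠ 0
  mul : ∀ (γ δ : Γ) (v : V), e (γ * δ) v = e γ ((δ : V ≃ᵃ[ℂ] V) v) * e δ v

namespace WeilClass

variable {Γ : Subgroup (V ≃ᵃ[ℂ] V)}

/-- The multiple `k D`. -/
def mult (k : ℕ) (D : WeilClass Γ) : WeilClass Γ where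
  e := fun γ v => D.e γ v ^ k
  holo := fun γ => (D.holo γ).pow k
  ne_zero := fun γ v => pow_ne_zero k (D.ne_zero γ v)
  mul := fun γ δ v => by rw [D.mul, mul_pow]

/-- The divisor `D` is Cartier: all stabilisers act trivially on the fibres. -/
def IsCartier (D : WeilClass Γ) : Prop :=
  ∀ (γ : Γ) (v : V), (γ : V ≃ᵃ[ℂ] V) v = v → D.e γ v = 1

/-- Global sections of `O_X(D)`: holomorphic functions `s` on `V` with `s (γ v) = e_γ(v) s(v)`. -/
structure IsSection (D : WeilClass Γ) (s : V → ℂ) : Prop where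
  holo : Differentiable ℂ s
  eq : ∀ (γ : Γ) (v : V), s ((γ : V ≃ᵃ[ℂ] V) v) = D.e γ v * s v

/-- The linear system `|D|` of the Cartier divisor `D` has no base points. -/
def BasePointFree (D : WeilClass Γ) : Prop := D.IsCartier ∧ ∀ v, ∃ s, D.IsSection s ∧ s v ≠ 0

/-- The numerical class of `D` is given by the hermitian form `H`: for some holomorphic function `F` the
formula `‖s(v)‖² = |s(v)|² exp (- π H(v,v) - 2 Re F(v))` defines a hermitian metric on `O_X(D)`. -/
def HasChernForm (D : WeilClass Γ) (H : V → V → ℂ) : Prop :=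
  IsHermitian H ∧ ∃ F : V → ℂ, Differentiable ℂ F ∧ ∀ (γ : Γ) (v : V),
    ‖D.e γ v‖ ^ 2 =
      Real.exp (Real.pi * (H ((γ : V ≃ᵃ[ℂ] V) v) ((γ : V ≃ᵃ[ℂ] V) v)).re
        + 2 * (F ((γ : V ≃ᵃ[ℂ] V) v)).re - (Real.pi * (H v v).re + 2 * (F v).re))

end WeilClass

end Pool.Agent.R800.UA
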