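import Pool.Agent.R800.UA.Uni
import Pool.Agent.R800.UA.WeilDefs

/-!
# Uniform abundance for Weil divisors on torus quotients
-/

set_option autoImplicit false

namespace Pool.Agent.R800.UA

open Pool.Agent.W594.SYZ2 Pool.Agent.W594.SYZ2.TQ Pool.Agent.TH735.AQ Pool.Agent.R893.TQ

variable {V : Type*} [NormedAddCommGroup V] [NormedSpace ℂ V]
  {Γ : Subgroup (V ≃ᵃ[ℂ] V)} {D : WeilClass Γ} {H : V → V → ℂ}

theorem WeilClass.e_one (D : WeilClass Γ) (v : V) : D.e 1 v = 1 := by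
  have h := D.mul 1 1 v
  rw [one_mul] at h
  have h1 : ((1 : Γ) : V ≃ᵃ[ℂ] V) v = v := rfl
  rw [h1] at h
  have h2 := D.ne_zero 1 v
  exact (mul_right_cancel₀ h2 ((one_mul _).trans h)).symm

variable [FiniteDimensional ℂ V]

/-- The index of a Weil divisor divides the order of the group. -/
theorem WeilClass.cartier (hΓ : IsTorusQuotient Γ) (D : WeilClass Γ) :
    (D.mult (Nat.card (Lin Γ))).IsCartier := by
  intro γ v h
  have := finite_Lin hΓ
  have key : ∀ n : ℕ, ((γ ^ n : Γ) : V ≃ᵃ[ℂ] V) v = v ∧ D.e (γ ^ n) v = D.e γ v ^ n := by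
    intro n
    induction n with
    | zero =>
      rw [pow_zero, pow_zero]
      exact ⟨rfl, D.e_one v⟩
    | succ n ih =>
      constructor
      · have h1 : ((γ ^ (n + 1) : Γ) : V ≃ᵃ[ℂ] V) v
            = (γ : V ≃ᵃ[ℂ] V) (((γ ^ n : Γ) : V ≃ᵃ[ℂ] V) v) := by
          rw [pow_succ']
          rfl
        rw [h1, ih.1, h]
      · rw [pow_succ, D.mul, h, ih.2, pow_succ]
  set M := Nat.card (Lin Γ) with hM
  have hlin : ∀ w, ((γ ^ M : Γ) : V ≃ᵃ[ℂ] V).linear w = w := by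
    let g : Lin Γ := ⟨(γ : V ≃ᵃ[ℂ] V).linear, γ, γ.2, rfl⟩
    have hg : ∀ n : ℕ, ((g ^ n : Lin Γ) : V ≃ₗ[ℂ] V) = ((γ ^ n : Γ) : V ≃ᵃ[ℂ] V).linear := by
      intro n
      have e1 : ((g ^ n : Lin Γ) : V ≃ₗ[ℂ] V) = (g : V ≃ₗ[ℂ] V) ^ n := rfl
      have e2 : ((γ ^ n : Γ) : V ≃ᵃ[ℂ] V) = (γ : V ≃ᵃ[ℂ] V) ^ n := rfl
      have e3 : ((γ : V ≃ᵃ[ℂ] V) ^ n).linear = AffineEquiv.linearHom ((γ : V ≃ᵃ[ℂ] V) ^ n) := rfl
      rw [e1, e2, e3, map_pow]
      rfl
    intro w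
    rw [← hg M, hM, pow_card_eq_one']
    rfl
  obtain ⟨h1, h2⟩ := key M
  have h3 : γ ^ M = 1 := by
    apply Subtype.ext
    apply AffineEquiv.ext
    intro w
    have h4 : w = v + (w - v) := by abel
    rw [h4, act_add, h1, hlin]
    rfl
  change D.e γ v ^ M = 1
  rw [← h2, h3, D.e_one]

/-- The line bundle of a multiple which is Cartier. -/
noncomputable def WeilClass.toLine (D : WeilClass Γ) (k : ℕ) (h : (D.mult k).IsCartier) : LineBundle Γ where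
  e := fun γ v => D.e γ v ^ k
  holo := (D.mult k).holo
  ne_zero := (D.mult k).ne_zero
  mul := (D.mult k).mul
  stab := h

omit [FiniteDimensional ℂ V] in
theorem WeilClass.toLine_chern (hc : D.HasChernForm H) (k : ℕ) (h : (D.mult k).IsCartier) :
    IsChernForm (D.toLine k h) (fun v w => (k : ℂ) * H v w) := by
  obtain ⟨hH, F, hF, hFe⟩ := hc
  refine ⟨⟨fun u v w => ?_, fun a v w => ?_, fun v w => ?_⟩, fun v => (k : ℂ) * F v,
    hF.const_mul _, fun γ v => ?_⟩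
  · rw [hH.add_left, mul_add]
  · rw [hH.smul_left]
    ring
  · rw [map_mul, ← hH.symm, Complex.conj_natCast]
  · have h1 : ‖(D.toLine k h).e γ v‖ ^ 2 = (‖D.e γ v‖ ^ 2) ^ k := by
      change ‖D.e γ v ^ k‖ ^ 2 = _
      rw [norm_pow, ← pow_mul, ← pow_mul, mul_comm]
    rw [h1, hFe, ← Real.exp_nat_mul]
    simp only [natCast_mul_re]
    congr 1
    ring

theorem weil_uni (hΓ : IsTorusQuotient Γ) (h01 : HOneZero Γ) {n : ℕ}
    (hd : Module.finrank ℂ V = n) (hc : D.HasChernForm H) (hn : IsNefForm H) :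
    (D.mult (4 * gl3 n ^ 6)).BasePointFree := by
  set N := Nat.card (Lin Γ) with hN
  have hcar := D.cartier hΓ
  have h1 := power_uni hΓ h01 hd (D.toLine_chern hc N hcar) (by
    intro v
    rw [natCast_mul_re]
    exact mul_nonneg (Nat.cast_nonneg _) (hn v))
  obtain ⟨k, hk⟩ : N * (4 * gl3 n ^ 5) ∣ 4 * gl3 n ^ 6 := by
    have h2 : 4 * gl3 n ^ 6 = gl3 n * (4 * gl3 n ^ 5) := by ring
    rw [h2]
    exact Nat.mul_dvd_mul_right (card_dvd hΓ hd) _
  constructor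
  · intro γ v h
    have h2 := hcar γ v h
    change D.e γ v ^ N = 1 at h2
    change D.e γ v ^ (4 * gl3 n ^ 6) = 1
    rw [hk, mul_assoc, pow_mul, h2, one_pow]
  · intro v
    obtain ⟨s, hs, hv⟩ := h1 v
    refine ⟨fun w => s w ^ k, ⟨hs.holo.pow k, fun γ w => ?_⟩, pow_ne_zero k hv⟩
    change s _ ^ k = D.e γ w ^ (4 * gl3 n ^ 6) * s w ^ k
    have h3 := hs.eq γ w
    change s _ = (D.e γ w ^ N) ^ (4 * gl3 n ^ 5) * s w at h3
    rw [h3, mul_pow, hk, ← pow_mul, ← pow_mul, mul_assoc N]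

end Pool.Agent.R800.UA
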